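import Pool.Agent.H23.DM.TargetsI

/-!
# Board dmh_modules, module EX: the quotient of two characters with the same component at `k`
-/

set_option autoImplicit false

open NumberField NumberField.InfinitePlace NumberField.Units
  NumberField.Units.dirichletUnitTheorem MeasureTheory Set Filter Complex
open scoped nonZeroDivisors ENNReal

namespace Pool.Agent.H92.DM.EX

open Pool.Agent.H25.HK Pool.Agent.H23.LB Pool.Agent.H23.LC Pool.Agent.H23.DM

section ded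

variable {R : Type} [CommRing R]

private lemma mul_top {I J L : Ideal R} (h1 : I ⊔ L = ⊤) (h2 : J ⊔ L = ⊤) : I * J ⊔ L = ⊤ :=
  Ideal.isCoprime_iff_sup_eq.1
    (IsCoprime.mul_left (Ideal.isCoprime_iff_sup_eq.2 h1) (Ideal.isCoprime_iff_sup_eq.2 h2))

private lemma top_of_le {I J L : Ideal R} (h : I ⊔ L = ⊤) (h1 : I ≤ J) : J ⊔ L = ⊤ :=
  top_le_iff.1 (h ▸ sup_le_sup_right h1 L)

private lemma one_top {l : Ideal R} {a : R} (h : a - 1 ∈ l) : Ideal.span {a} ⊔ l = ⊤ := by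
  rw [Ideal.eq_top_iff_one]
  have h1 : (1 : R) = a + -(a - 1) := by ring
  rw [h1]
  exact Ideal.add_mem _ (Ideal.mem_sup_left (Ideal.mem_span_singleton_self a))
    (Ideal.mem_sup_right (neg_mem h))

variable [IsDedekindDomain R]

private lemma exists_gen {l k I : Ideal R} (hl : l ≠ ⊥) (hk : k ≠ ⊥) (hlk : l ⊔ k = ⊤)
    (hI : I ≠ ⊥) (hIl : I ⊔ l = ⊤) :
    ∃ (a : R) (J : Ideal R), a ≠ 0 ∧ a - 1 ∈ l ∧ Ideal.span {a} = I * J ∧ J ⊔ k = ⊤ := by
  obtain ⟨b, hb⟩ := IsDedekindDomain.exists_sup_span_eq (I := I * k) (J := I)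
    Ideal.mul_le_left (mul_ne_zero hI hk)
  have h1 : I * k ⊔ l = ⊤ := mul_top hIl (by rw [sup_comm]; exact hlk)
  have h2 : (1 : R) ∈ I * k ⊔ l := by rw [h1]; exact Submodule.mem_top
  obtain ⟨u, hu, v, hv, huv⟩ := Submodule.mem_sup.1 h2
  have h3 : ∃ a : R, a ≠ 0 ∧ a - b ∈ I * k ∧ a - 1 ∈ l := by
    have h4 : (b * v + u) - b ∈ I * k := by
      have h5 : (b * v + u) - b = u - b * u := by linear_combination b * huv
      rw [h5]
      exact sub_mem hu (Ideal.mul_mem_left _ _ hu)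
    have h6 : (b * v + u) - 1 ∈ l := by
      have h7 : (b * v + u) - 1 = b * v - v := by linear_combination huv
      rw [h7]
      exact sub_mem (Ideal.mul_mem_left _ _ hv) hv
    by_cases h0 : b * v + u = 0
    · have h8 : I * k * l ≠ ⊥ := mul_ne_zero (mul_ne_zero hI hk) hl
      obtain ⟨w, hw, hw0⟩ := Submodule.exists_mem_ne_zero_of_ne_bot h8
      refine ⟨w, hw0, ?_, ?_⟩
      · have h9 : w - b = w + ((b * v + u) - b) := by rw [h0]; ring
        rw [h9]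
        exact add_mem (Ideal.mul_le_left hw) h4
      · have h9 : w - 1 = w + ((b * v + u) - 1) := by rw [h0]; ring
        rw [h9]
        exact add_mem (Ideal.mul_le_right hw) h6
    · exact ⟨_, h0, h4, h6⟩
  obtain ⟨a, ha0, ha1, ha2⟩ := h3
  have hbI : b ∈ I := by
    have h4 : Ideal.span {b} ≤ I := hb ▸ le_sup_right
    exact h4 (Ideal.mem_span_singleton_self b)
  have haI : a ∈ I := by
    have h4 : a = (a - b) + b := by ring
    rw [h4]
    exact add_mem (Ideal.mul_le_left ha1) hbI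
  have h5 : I ∣ Ideal.span {a} :=
    Ideal.dvd_iff_le.2 ((Ideal.span_singleton_le_iff_mem I).2 haI)
  obtain ⟨J, hJ⟩ := h5
  refine ⟨a, J, ha0, ha2, hJ, ?_⟩
  have h6 : I ≤ I * (J ⊔ k) := by
    rw [Ideal.mul_sup, ← hJ]
    calc I = I * k ⊔ Ideal.span {b} := hb.symm
      _ ≤ Ideal.span {a} ⊔ I * k := by
        refine sup_le le_sup_right ((Ideal.span_singleton_le_iff_mem _).2 ?_)
        have h7 : b = a + -(a - b) := by ring
        rw [h7]
        exact add_mem (Ideal.mem_sup_left (Ideal.mem_span_singleton_self a))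
          (Ideal.mem_sup_right (neg_mem ha1))
  have h8 : I * (J ⊔ k) = I * ⊤ := by
    rw [Ideal.mul_top]
    exact le_antisymm Ideal.mul_le_left h6
  exact mul_left_cancel₀ hI h8

/-- the data -/
private structure Dat (l k : Ideal R) (F : Ideal R → ℂ) (A : R → ℂ) : Prop where
  l_ne : l ≠ ⊥
  k_ne : k ≠ ⊥
  lk : l ⊔ k = ⊤
  Fmul : ∀ I J, F (I * J) = F I * F J
  Ftop : F ⊤ = 1
  Fnorm : ∀ I, I ≠ ⊥ → I ⊔ l = ⊤ → I ⊔ k = ⊤ → ‖F I‖ = 1
  Amul : ∀ a b, a ≠ 0 → b ≠ 0 → A (a * b) = A a * A b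
  Aone : A 1 = 1
  Anorm : ∀ a, a ≠ 0 → ‖A a‖ = 1
  FA : ∀ a, a ≠ 0 → a - 1 ∈ l → Ideal.span {a} ⊔ k = ⊤ → F (Ideal.span {a}) = A a

private lemma conj_of_norm {z : ℂ} (h : ‖z‖ = 1) : z * (starRingEnd ℂ) z = 1 := by
  rw [Complex.mul_conj, Complex.normSq_eq_norm_sq, h]
  norm_num

/-- the independence of the choice -/
private lemma indep {l k : Ideal R} {F : Ideal R → ℂ} {A : R → ℂ} (D : Dat l k F A)
    {I J J' : Ideal R} {a a' : R} (ha : a ≠ 0) (ha' : a' ≠ 0) (h1 : a - 1 ∈ l)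
    (h1' : a' - 1 ∈ l) (h2 : Ideal.span {a} = I * J) (h2' : Ideal.span {a'} = I * J')
    (h3 : J ⊔ k = ⊤) (h3' : J' ⊔ k = ⊤) :
    A a * (starRingEnd ℂ) (F J) = A a' * (starRingEnd ℂ) (F J') := by
  have hane : Ideal.span {a} ≠ ⊥ := by
    rw [Ne, Ideal.span_singleton_eq_bot]
    exact ha
  have hane' : Ideal.span {a'} ≠ ⊥ := by
    rw [Ne, Ideal.span_singleton_eq_bot]
    exact ha'
  have hJ0 : J ≠ ⊥ := by
    rintro rfl
    rw [Ideal.mul_bot] at h2
    exact hane h2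
  have hJ0' : J' ≠ ⊥ := by
    rintro rfl
    rw [Ideal.mul_bot] at h2'
    exact hane' h2'
  have hJl : J ⊔ l = ⊤ := top_of_le (one_top h1) (h2 ▸ Ideal.mul_le_right)
  have hJl' : J' ⊔ l = ⊤ := top_of_le (one_top h1') (h2' ▸ Ideal.mul_le_right)
  obtain ⟨b, Js, hb0, hb1, hb2, hb3⟩ := exists_gen D.l_ne D.k_ne D.lk hJ0 hJl
  have hbne : Ideal.span {b} ≠ ⊥ := by
    rw [Ne, Ideal.span_singleton_eq_bot]
    exact hb0
  have hJs0 : Js ≠ ⊥ := by
    rintro rfl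
    rw [Ideal.mul_bot] at hb2
    exact hbne hb2
  have hJsl : Js ⊔ l = ⊤ := top_of_le (one_top hb1) (hb2 ▸ Ideal.mul_le_right)
  have e1 : F J * F Js = A b := by
    rw [← D.Fmul, ← hb2]
    refine D.FA b hb0 hb1 ?_
    rw [hb2]
    exact mul_top h3 hb3
  -- the element b'
  have h4 : Ideal.span {a' * b} = Ideal.span {a} * (J' * Js) := by
    rw [← Ideal.span_singleton_mul_span_singleton, h2', hb2, h2]
    ring
  have h5 : a ∣ a' * b := by
    rw [← Ideal.mem_span_singleton]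
    have h6 : a' * b ∈ Ideal.span {a' * b} := Ideal.mem_span_singleton_self _
    rw [h4] at h6
    exact Ideal.mul_le_left h6
  obtain ⟨b', hb'⟩ := h5
  have h6 : Ideal.span {b'} = J' * Js := by
    rw [hb', ← Ideal.span_singleton_mul_span_singleton] at h4
    exact mul_left_cancel₀ hane h4
  have hb0' : b' ≠ 0 := by
    rintro rfl
    rw [mul_zero] at hb'
    exact mul_ne_zero ha' hb0 hb'
  have hb1' : b' - 1 ∈ l := by
    have h7 : b' - 1 = b * (a' - 1) + (b - 1) - b' * (a - 1) := by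
      linear_combination -hb'
    rw [h7]
    exact sub_mem (add_mem (Ideal.mul_mem_left _ _ h1') hb1) (Ideal.mul_mem_left _ _ h1)
  have e2 : F J' * F Js = A b' := by
    rw [← D.Fmul, ← h6]
    refine D.FA b' hb0' hb1' ?_
    rw [h6]
    exact mul_top h3' hb3
  have e3 : A a' * A b = A a * A b' := by
    rw [← D.Amul _ _ ha' hb0, ← D.Amul _ _ ha hb0', hb']
  have n1 := conj_of_norm (D.Fnorm J hJ0 hJl h3)
  have n2 := conj_of_norm (D.Fnorm J' hJ0' hJl' h3')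
  have n3 := conj_of_norm (D.Fnorm Js hJs0 hJsl hb3)
  have n4 : F Js ≠ 0 := by
    intro h
    rw [h, zero_mul] at n3
    exact zero_ne_one n3
  have n5 : F J ≠ 0 := by
    intro h
    rw [h, zero_mul] at n1
    exact zero_ne_one n1
  have n6 : F J' ≠ 0 := by
    intro h
    rw [h, zero_mul] at n2
    exact zero_ne_one n2
  -- A a * F J' = A a' * F J
  have e4 : A a * F J' = A a' * F J := by
    refine mul_right_cancel₀ n4 ?_
    linear_combination A a * e2 - A a' * e1 - e3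
  refine mul_right_cancel₀ (mul_ne_zero n5 n6) ?_
  linear_combination (A a * F J') * n1 - (A a' * F J) * n2 + e4

open scoped Classical in
/-- the character modulo `l` -/
private noncomputable def chr (l k : Ideal R) (F : Ideal R → ℂ) (A : R → ℂ) (I : Ideal R) : ℂ :=
  if h : ∃ (a : R) (J : Ideal R), a ≠ 0 ∧ a - 1 ∈ l ∧ Ideal.span {a} = I * J ∧ J ⊔ k = ⊤ then
    A h.choose * (starRingEnd ℂ) (F h.choose_spec.choose) else 0

private lemma chr_eq {l k : Ideal R} {F : Ideal R → ℂ} {A : R → ℂ} (D : Dat l k F A)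
    {I J : Ideal R} {a : R} (ha : a ≠ 0) (h1 : a - 1 ∈ l) (h2 : Ideal.span {a} = I * J)
    (h3 : J ⊔ k = ⊤) : chr l k F A I = A a * (starRingEnd ℂ) (F J) := by
  have h : ∃ (a : R) (J : Ideal R), a ≠ 0 ∧ a - 1 ∈ l ∧ Ideal.span {a} = I * J ∧ J ⊔ k = ⊤ :=
    ⟨a, J, ha, h1, h2, h3⟩
  unfold chr
  rw [dif_pos h]
  obtain ⟨g1, g2, g3, g4⟩ := h.choose_spec.choose_spec
  exact indep D g1 ha g2 h1 g3 h2 g4 h3

omit [IsDedekindDomain R] in
private lemma chr_zero {l k : Ideal R} {F : Ideal R → ℂ} {A : R → ℂ}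
    {I : Ideal R} (hI : I = ⊥ ∨ I ⊔ l ≠ ⊤) : chr l k F A I = 0 := by
  unfold chr
  refine dif_neg ?_
  rintro ⟨a, J, h1, h2, h3, -⟩
  rcases hI with rfl | hI
  · rw [Ideal.bot_mul, Ideal.span_singleton_eq_bot] at h3
    exact h1 h3
  · exact hI (top_of_le (one_top h2) (h3 ▸ Ideal.mul_le_left))

private lemma chr_top {l k : Ideal R} {F : Ideal R → ℂ} {A : R → ℂ} (D : Dat l k F A) :
    chr l k F A ⊤ = 1 := by
  rw [chr_eq D (I := ⊤) (J := ⊤) (a := 1) one_ne_zero (by simp) (by simp) (by simp), D.Aone,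
    D.Ftop, map_one, mul_one]

private lemma chr_mul {l k : Ideal R} {F : Ideal R → ℂ} {A : R → ℂ} (D : Dat l k F A)
    (I J : Ideal R) : chr l k F A (I * J) = chr l k F A I * chr l k F A J := by
  by_cases hI : I = ⊥ ∨ I ⊔ l ≠ ⊤
  · rw [chr_zero hI, zero_mul]
    refine chr_zero ?_
    rcases hI with rfl | hI
    · left
      exact Ideal.bot_mul J
    · right
      exact fun h => hI (top_of_le h Ideal.mul_le_left)
  by_cases hJ : J = ⊥ ∨ J ⊔ l ≠ ⊤
  · rw [chr_zero hJ, mul_zero]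
    refine chr_zero ?_
    rcases hJ with rfl | hJ
    · left
      exact Ideal.mul_bot I
    · right
      exact fun h => hJ (top_of_le h Ideal.mul_le_right)
  push Not at hI hJ
  obtain ⟨a, I', h1, h2, h3, h4⟩ := exists_gen D.l_ne D.k_ne D.lk hI.1 hI.2
  obtain ⟨b, J', g1, g2, g3, g4⟩ := exists_gen D.l_ne D.k_ne D.lk hJ.1 hJ.2
  rw [chr_eq D h1 h2 h3 h4, chr_eq D g1 g2 g3 g4,
    chr_eq D (I := I * J) (J := I' * J') (a := a * b) (mul_ne_zero h1 g1) ?_ ?_ (mul_top h4 g4),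
    D.Amul _ _ h1 g1, D.Fmul, map_mul]
  · ring
  · have h5 : a * b - 1 = b * (a - 1) + (b - 1) := by ring
    rw [h5]
    exact add_mem (Ideal.mul_mem_left _ _ h2) g2
  · rw [← Ideal.span_singleton_mul_span_singleton, h3, g3]
    ring

private lemma chr_norm {l k : Ideal R} {F : Ideal R → ℂ} {A : R → ℂ} (D : Dat l k F A)
    {I : Ideal R} (hI : I ≠ ⊥) (hIl : I ⊔ l = ⊤) : ‖chr l k F A I‖ = 1 := by
  obtain ⟨a, J, h1, h2, h3, h4⟩ := exists_gen D.l_ne D.k_ne D.lk hI hIl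
  rw [chr_eq D h1 h2 h3 h4, norm_mul, RCLike.norm_conj, D.Anorm a h1, D.Fnorm J ?_ ?_ h4, mul_one]
  · rintro rfl
    rw [Ideal.mul_bot, Ideal.span_singleton_eq_bot] at h3
    exact h1 h3
  · exact top_of_le (one_top h2) (h3 ▸ Ideal.mul_le_right)

private lemma chr_princ {l k : Ideal R} {F : Ideal R → ℂ} {A : R → ℂ} (D : Dat l k F A)
    {a : R} (ha : a ≠ 0) (h1 : a - 1 ∈ l) : chr l k F A (Ideal.span {a}) = A a := by
  have hane : Ideal.span {a} ≠ ⊥ := by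
    rw [Ne, Ideal.span_singleton_eq_bot]
    exact ha
  obtain ⟨c, J, g1, g2, g3, g4⟩ := exists_gen D.l_ne D.k_ne D.lk hane (one_top h1)
  have h2 : a ∣ c := by
    rw [← Ideal.mem_span_singleton]
    have h3 : c ∈ Ideal.span {c} := Ideal.mem_span_singleton_self _
    rw [g3] at h3
    exact Ideal.mul_le_left h3
  obtain ⟨j, hc⟩ := h2
  have h3 : Ideal.span {j} = J := by
    rw [hc, ← Ideal.span_singleton_mul_span_singleton] at g3
    exact mul_left_cancel₀ hane g3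
  have hj : j ≠ 0 := by
    intro h
    rw [h, mul_zero] at hc
    exact g1 hc
  have hj1 : j - 1 ∈ l := by
    have h4 : j - 1 = (c - 1) - j * (a - 1) := by
      rw [hc]
      ring
    rw [h4]
    exact sub_mem g2 (Ideal.mul_mem_left _ _ h1)
  have h5 : F J = A j := by
    rw [← h3]
    exact D.FA j hj hj1 (by rw [h3]; exact g4)
  have h6 : A c = A a * A j := by
    rw [hc]
    exact D.Amul _ _ ha hj
  rw [chr_eq D g1 g2 g3 g4, h5, h6, mul_assoc, conj_of_norm (D.Anorm j hj), mul_one]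

private lemma chr_F {l k : Ideal R} {F : Ideal R → ℂ} {A : R → ℂ} (D : Dat l k F A)
    {I : Ideal R} (hI : I ≠ ⊥) (hIl : I ⊔ l = ⊤) (hIk : I ⊔ k = ⊤) : chr l k F A I = F I := by
  obtain ⟨a, J, h1, h2, h3, h4⟩ := exists_gen D.l_ne D.k_ne D.lk hI hIl
  have hJ0 : J ≠ ⊥ := by
    rintro rfl
    rw [Ideal.mul_bot, Ideal.span_singleton_eq_bot] at h3
    exact h1 h3
  have hJl : J ⊔ l = ⊤ := top_of_le (one_top h2) (h3 ▸ Ideal.mul_le_right)
  have h5 : A a = F I * F J := by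
    rw [← D.Fmul, ← h3]
    exact (D.FA a h1 h2 (by rw [h3]; exact mul_top hIk h4)).symm
  rw [chr_eq D h1 h2 h3 h4, h5, mul_assoc, conj_of_norm (D.Fnorm J hJ0 hJl h4), mul_one]

end ded

section

variable {K : Type} [Field K] [NumberField K]

private lemma ag_sub (hAG : U_AG) (k k' : InfinitePlace K → ℤ) {x : K} (hx : x ≠ 0) :
    ag (k - k') x = ag k x * (starRingEnd ℂ) (ag k' x) := by
  rw [← (hAG K k').2.2.2.1 x hx]
  unfold ag
  rw [← Finset.prod_mul_distrib]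
  refine Finset.prod_congr rfl fun v _ => ?_
  have h1 : v.embedding x / ((v x : ℝ) : ℂ) ≠ 0 := by
    refine div_ne_zero ((map_ne_zero _).2 hx) ?_
    rw [Complex.ofReal_ne_zero]
    exact (map_ne_zero v).2 hx
  rw [← zpow_add₀ h1, Pi.sub_apply, Pi.neg_apply, sub_eq_add_neg]

private lemma ph_sub (ν ν' : InfinitePlace K → ℝ) (x : K) :
    ph (ν - ν') x = ph ν x * (starRingEnd ℂ) (ph ν' x) := by
  unfold ph
  rw [← Complex.exp_conj, ← Complex.exp_add]
  congr 1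
  rw [map_mul, Complex.conj_ofReal, Complex.conj_I, mul_neg, ← sub_eq_add_neg, ← sub_mul,
    ← Complex.ofReal_sub, ← Finset.sum_sub_distrib]
  congr 2
  refine Finset.sum_congr rfl fun v _ => ?_
  rw [Pi.sub_apply]
  ring

private lemma ag_one' (hAG : U_AG) (k : InfinitePlace K → ℤ) : ag k (1 : K) = 1 :=
  (hAG K k).2.2.1

private lemma ph_mul' (ν : InfinitePlace K → ℝ) {x y : K} (hx : x ≠ 0) (hy : y ≠ 0) :
    ph ν (x * y) = ph ν x * ph ν y := by
  unfold ph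
  rw [← Complex.exp_add]
  congr 1
  rw [← add_mul, ← Complex.ofReal_add, ← Finset.sum_add_distrib]
  congr 2
  refine Finset.sum_congr rfl fun v _ => ?_
  have h1 : v x ≠ 0 := (map_ne_zero v).2 hx
  have h2 : v y ≠ 0 := (map_ne_zero v).2 hy
  rw [map_mul, Real.log_mul h1 h2]
  ring

private lemma ph_one' (ν : InfinitePlace K → ℝ) : ph ν (1 : K) = 1 := by
  unfold ph
  simp

private lemma ph_norm' (ν : InfinitePlace K → ℝ) (x : K) : ‖ph ν x‖ = 1 := by
  unfold ph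
  exact Complex.norm_exp_ofReal_mul_I _

/-- the data of two characters -/
private lemma dat (hAG : U_AG) {l k : Ideal (𝓞 K)} (hl : l ≠ ⊥) (hk : k ≠ ⊥) (hlk : l ⊔ k = ⊤)
    (χ χ₀ : HG K (l * k))
    (h : ∀ a : 𝓞 K, a ≠ 0 → a - 1 ∈ l → Ideal.span {a} ⊔ k = ⊤ →
        χ.ψ (Ideal.span {a}) * (starRingEnd ℂ) (ag χ.k (a : K) * ph χ.ν (a : K)) =
          χ₀.ψ (Ideal.span {a}) * (starRingEnd ℂ) (ag χ₀.k (a : K) * ph χ₀.ν (a : K))) :
    Dat l k (fun I => χ.ψ I * (starRingEnd ℂ) (χ₀.ψ I))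
      (fun a => ag (χ.k - χ₀.k) (a : K) * ph (χ.ν - χ₀.ν) (a : K)) where
  l_ne := hl
  k_ne := hk
  lk := hlk
  Fmul I J := by
    rw [χ.map_mul, χ₀.map_mul, map_mul]
    ring
  Ftop := by rw [χ.map_top, χ₀.map_top, map_one, mul_one]
  Fnorm I h1 h2 h3 := by
    have h4 : I ⊔ l * k = ⊤ := by
      rw [sup_comm]
      exact mul_top (by rw [sup_comm]; exact h2) (by rw [sup_comm]; exact h3)
    rw [norm_mul, RCLike.norm_conj, χ.norm_one I h1 h4, χ₀.norm_one I h1 h4, mul_one]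
  Amul a b ha hb := by
    have ha' : (a : K) ≠ 0 := by simpa using ha
    have hb' : (b : K) ≠ 0 := by simpa using hb
    have h1 : ((a * b : 𝓞 K) : K) = (a : K) * b := by simp
    rw [h1, (hAG K _).1 _ _ ha' hb', ph_mul' _ ha' hb']
    ring
  Aone := by
    have h1 : ((1 : 𝓞 K) : K) = 1 := by simp
    rw [h1, ag_one' hAG, ph_one', mul_one]
  Anorm a ha := by
    have ha' : (a : K) ≠ 0 := by simpa using ha
    rw [norm_mul, (hAG K _).2.1 _ ha', ph_norm', mul_one]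
  FA a ha h1 h2 := by
    have ha' : (a : K) ≠ 0 := by simpa using ha
    have h3 := h a ha h1 h2
    have hane : Ideal.span {a} ≠ ⊥ := by
      rw [Ne, Ideal.span_singleton_eq_bot]
      exact ha
    have h4 : Ideal.span {a} ⊔ l * k = ⊤ := by
      rw [sup_comm]
      exact mul_top (by rw [sup_comm]; exact one_top h1) (by rw [sup_comm]; exact h2)
    have n1 := conj_of_norm (χ₀.norm_one _ hane h4)
    have n2 : ‖ag χ.k (a : K) * ph χ.ν (a : K)‖ = 1 := by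
      rw [norm_mul, (hAG K _).2.1 _ ha', ph_norm', mul_one]
    have n3 := conj_of_norm n2
    rw [ag_sub hAG _ _ ha', ph_sub]
    simp only [map_mul] at h3 n3 ⊢
    linear_combination (ag χ.k (a : K) * ph χ.ν (a : K) *
      (starRingEnd ℂ) (χ₀.ψ (Ideal.span {a}))) * h3 - (χ.ψ (Ideal.span {a}) *
      (starRingEnd ℂ) (χ₀.ψ (Ideal.span {a}))) * n3 + (ag χ.k (a : K) * ph χ.ν (a : K) *
      (starRingEnd ℂ) (ag χ₀.k (a : K)) * (starRingEnd ℂ) (ph χ₀.ν (a : K))) * n1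

/-- the quotient -/
private noncomputable def quo (hAG : U_AG) {l k : Ideal (𝓞 K)} (hl : l ≠ ⊥) (hk : k ≠ ⊥)
    (hlk : l ⊔ k = ⊤) (χ χ₀ : HG K (l * k))
    (h : ∀ v : InfinitePlace K, v.IsReal → χ.k v = χ₀.k v)
    (h' : ∀ a : 𝓞 K, a ≠ 0 → a - 1 ∈ l → Ideal.span {a} ⊔ k = ⊤ →
        χ.ψ (Ideal.span {a}) * (starRingEnd ℂ) (ag χ.k (a : K) * ph χ.ν (a : K)) =
          χ₀.ψ (Ideal.span {a}) * (starRingEnd ℂ) (ag χ₀.k (a : K) * ph χ₀.ν (a : K))) :
    HG K l where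
  ψ := chr l k (fun I => χ.ψ I * (starRingEnd ℂ) (χ₀.ψ I))
      (fun a => ag (χ.k - χ₀.k) (a : K) * ph (χ.ν - χ₀.ν) (a : K))
  k := χ.k - χ₀.k
  ν := χ.ν - χ₀.ν
  map_top := chr_top (dat hAG hl hk hlk χ χ₀ h')
  map_mul I J := chr_mul (dat hAG hl hk hlk χ χ₀ h') I J
  map_bot := chr_zero (Or.inl rfl)
  norm_one I h1 h2 := chr_norm (dat hAG hl hk hlk χ χ₀ h') h1 h2
  eq_zero I h1 := chr_zero (Or.inr h1)
  princ a ha h1 := chr_princ (dat hAG hl hk hlk χ χ₀ h') ha h1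
  real_k v hv := by
    left
    rw [Pi.sub_apply, h v hv, sub_self]
  norm_zero := by
    have h1 := χ.norm_zero
    have h2 := χ₀.norm_zero
    simp only [Pi.sub_apply, mul_sub, Finset.sum_sub_distrib, h1, h2, sub_self]

end

/-- The quotient of two characters with the same component at `k` is a character modulo `l`. -/
theorem pf_EX (hAG : U_AG) : D_EX := by
  classical
  intro K _ _ l k χ₀ hl hk hlk
  have key : ∀ χ : HG K (l * k), ∃ η : HG K l,
      (∀ v : InfinitePlace K, v.IsReal → χ.k v = χ₀.k v) →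
      (∀ a : 𝓞 K, a ≠ 0 → a - 1 ∈ l → Ideal.span {a} ⊔ k = ⊤ →
        χ.ψ (Ideal.span {a}) * (starRingEnd ℂ) (ag χ.k (a : K) * ph χ.ν (a : K)) =
          χ₀.ψ (Ideal.span {a}) * (starRingEnd ℂ) (ag χ₀.k (a : K) * ph χ₀.ν (a : K))) →
      η.k = χ.k - χ₀.k ∧ η.ν = χ.ν - χ₀.ν ∧
      ∀ I : Ideal (𝓞 K), I ≠ ⊥ → I ⊔ l * k = ⊤ → η.ψ I = χ.ψ I * (starRingEnd ℂ) (χ₀.ψ I) := by
    intro χ
    by_cases h : (∀ v : InfinitePlace K, v.IsReal → χ.k v = χ₀.k v) ∧
      (∀ a : 𝓞 K, a ≠ 0 → a - 1 ∈ l → Ideal.span {a} ⊔ k = ⊤ →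
        χ.ψ (Ideal.span {a}) * (starRingEnd ℂ) (ag χ.k (a : K) * ph χ.ν (a : K)) =
          χ₀.ψ (Ideal.span {a}) * (starRingEnd ℂ) (ag χ₀.k (a : K) * ph χ₀.ν (a : K)))
    · refine ⟨quo hAG hl hk hlk χ χ₀ h.1 h.2, fun _ _ => ⟨rfl, rfl, fun I h1 h2 => ?_⟩⟩
      refine chr_F (dat hAG hl hk hlk χ χ₀ h.2) h1 ?_ ?_
      · exact top_le_iff.1 (h2 ▸ sup_le_sup_left Ideal.mul_le_left I)
      · exact top_le_iff.1 (h2 ▸ sup_le_sup_left Ideal.mul_le_right I)
    · refine ⟨quo hAG hl hk hlk χ₀ χ₀ (fun _ _ => rfl) (fun _ _ _ _ => rfl), fun h1 h2 => ?_⟩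
      exact absurd ⟨h1, h2⟩ h
  choose h hh using key
  exact ⟨h, fun χ h1 h2 => hh χ h1 h2⟩

end Pool.Agent.H92.DM.EX
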