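import Pool.Agent.H23.DM.TargetsI

/-!
# Board dmh_modules, module NC: the number of the multiplicative characters
-/

set_option autoImplicit false

open NumberField NumberField.InfinitePlace NumberField.Units
  NumberField.Units.dirichletUnitTheorem MeasureTheory Set Filter Complex
open scoped nonZeroDivisors ENNReal

namespace Pool.Agent.H92.DM.NC

open Pool.Agent.H25.HK Pool.Agent.H23.LB Pool.Agent.H29.TC Pool.Agent.H23.DM

private lemma card_le {R : Type} [CommRing R] [Fintype R] (H : Finset (R → ℂ))
    (hH : ∀ η ∈ H, MC η) : H.card ≤ Fintype.card R := by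
  classical
  let F : {η // η ∈ H} → (R →* ℂ) := fun η =>
    { toFun := η.1
      map_one' := (hH _ η.2).one
      map_mul' := (hH _ η.2).mul }
  have hF : Function.Injective F := by
    intro η η' h
    apply Subtype.ext
    funext x
    exact DFunLike.congr_fun h x
  have h1 : LinearIndependent ℂ fun η : {η // η ∈ H} => (F η : R → ℂ) :=
    (linearIndependent_monoidHom R ℂ).comp F hF
  have h2 := h1.fintype_card_le_finrank
  rw [Module.finrank_fintype_fun_eq_card, Fintype.card_coe] at h2
  exact h2

/-- The number of the multiplicative characters. -/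
theorem pf_NC : D_NC := by
  classical
  intro K _ _ k H hk hH
  have : Finite (𝓞 K ⧸ k) := Ideal.finiteQuotientOfFreeOfNeBot k hk
  have : Fintype (𝓞 K ⧸ k) := Fintype.ofFinite _
  have h1 := card_le H hH
  have h2 : Nf K k = (Fintype.card (𝓞 K ⧸ k) : ℝ) := by
    unfold Nf
    rw [Ideal.absNorm_apply, Submodule.cardQuot_apply, Nat.card_eq_fintype_card]
  rw [h2]
  exact_mod_cast h1

end Pool.Agent.H92.DM.NC
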